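import Pool.Agent.helper65.GF.SpecG

/-!
# Row YG2: even functions with positive real part
-/

set_option autoImplicit false

namespace Pool.Agent.GD

open Finset Metric Filter Topology

theorem YG2_sum (f : ℕ → ℂ) (hf : ∀ k, f (2 * k + 1) = 0) (k : ℕ) :
    ∑ r ∈ range (2 * k + 1), f r = ∑ r ∈ range (k + 1), f (2 * r) := by
  induction k with
  | zero => simp
  | succ k ih =>
    rw [show 2 * (k + 1) + 1 = 2 * k + 1 + 1 + 1 by ring, sum_range_succ, sum_range_succ, ih, hf k, add_zero,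
      sum_range_succ _ (k + 1)]
    rfl

theorem YG2_approx (μ : ℕ → ℂ) (h : Approx μ) : Approx (fun k => μ (2 * k)) := by
  intro M ε hε
  obtain ⟨N, w, x, ⟨h1, h2, h3⟩, h4⟩ := h (2 * M) ε hε
  refine ⟨N, w, fun l => x l ^ 2, ⟨h1, h2, fun l => ?_⟩, fun m hm => ?_⟩
  · rw [norm_pow, h3 l, one_pow]
  · have h5 : mom w (fun l => x l ^ 2) m = mom w x (2 * m) := by
      unfold mom
      refine sum_congr rfl fun l _ => ?_
      rw [← pow_mul]
    show ‖mom w (fun l => x l ^ 2) m - μ (2 * m)‖ < ε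
    rw [h5]
    exact h4 (2 * m) (by omega)

theorem YG2_cara (q : ℕ → ℂ) (h : Cara q) : Cara (fun k => q (2 * k)) := by
  obtain ⟨h0, κ, μ, h1, h2, h3⟩ := h
  exact ⟨h0, κ, fun k => μ (2 * k), YG2_approx μ h1, h2, fun m hm => h3 (2 * m) (by omega)⟩

theorem YG2_odd (Q : ℂ → ℂ) (hQ : DifferentiableOn ℂ Q (ball 0 1))
    (heven : ∀ z ∈ ball (0 : ℂ) 1, Q (-z) = Q z) (k : ℕ) : N2b689f5b.coeff Q (2 * k + 1) = 0 := by
  have h1 := CO1 Q hQ
  have h2 : Ser (fun n => (-1) ^ n * N2b689f5b.coeff Q n) Q := by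
    intro z hz
    have hz' : -z ∈ ball (0 : ℂ) 1 := by
      rw [mem_ball_zero_iff] at hz ⊢
      rw [norm_neg]; exact hz
    have h3 := h1 (-z) hz'
    rw [heven z hz] at h3
    have h4 : (fun n : ℕ => (-1 : ℂ) ^ n * N2b689f5b.coeff Q n * z ^ n) =
        fun n : ℕ => N2b689f5b.coeff Q n * (-z) ^ n := by
      funext n
      rw [neg_pow z n]; ring
    show HasSum (fun n : ℕ => (-1 : ℂ) ^ n * N2b689f5b.coeff Q n * z ^ n) (Q z)
    rw [h4]
    exact h3
  have h5 := congrFun (CO2 _ _ _ h1 h2) (2 * k + 1)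
  have h6 : ((-1 : ℂ)) ^ (2 * k + 1) = -1 := by
    rw [pow_succ, pow_mul]; simp
  have h7 : N2b689f5b.coeff Q (2 * k + 1) = -1 * N2b689f5b.coeff Q (2 * k + 1) := by
    rw [← h6]; exact h5
  have h8 : (2 : ℂ) * N2b689f5b.coeff Q (2 * k + 1) = 0 := by linear_combination h7
  rcases mul_eq_zero.1 h8 with h9 | h9
  · norm_num at h9
  · exact h9

theorem YG2 : YG2_stmt := by
  intro Q hQ hpos heven
  obtain ⟨q', κ', hq', hκ', hcq, hinv⟩ := h_XG2 Q hQ hpos
  have hQ0 : Q 0 ≠ 0 := by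
    intro h0
    have := hpos 0 (mem_ball_self one_pos)
    rw [h0] at this
    simp at this
  have hodd := YG2_odd Q hQ heven
  have hqodd : ∀ k, q' (2 * k + 1) = 0 := by
    intro k
    have h1 := hodd k
    rw [hcq] at h1
    rcases mul_eq_zero.1 h1 with h2 | h2
    · exact absurd h2 hQ0
    · exact h2
  have hκodd : ∀ n, n % 2 = 1 → κ' n = 0 := by
    intro n
    induction n using Nat.strong_induction_on with
    | _ n ih =>
      intro hn
      have h1 := hinv n
      have h2 : dl n = 0 := by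
        unfold dl
        rw [if_neg (by omega)]
      rw [h2] at h1
      unfold cv at h1
      rw [Finset.sum_eq_single_of_mem 0 (Finset.mem_range.2 (by omega))] at h1
      · rw [Nat.sub_zero, hq'.1, mul_one] at h1
        exact h1
      · intro r hr hr0
        rw [Finset.mem_range] at hr
        rcases Nat.even_or_odd' r with ⟨c, hc | hc⟩
        · rw [ih (n - r) (by omega) (by omega), zero_mul]
        · rw [hc, hqodd c, mul_zero]
  refine ⟨fun k => q' (2 * k), fun k => κ' (2 * k), YG2_cara q' hq', YG2_cara κ' hκ', fun k => ⟨hcq _, hodd k⟩, ?_⟩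
  intro n
  have h1 := hinv (2 * n)
  unfold cv at h1 ⊢
  rw [YG2_sum (fun r => κ' (2 * n - r) * q' r) (fun k => by
    show κ' (2 * n - (2 * k + 1)) * q' (2 * k + 1) = 0
    rw [hqodd k, mul_zero])] at h1
  have h2 : dl (2 * n) = dl n := by
    unfold dl
    by_cases hn : n = 0
    · rw [if_pos (by omega), if_pos hn]
    · rw [if_neg (by omega), if_neg hn]
  rw [← h2, ← h1]
  refine sum_congr rfl fun r _ => ?_
  show κ' (2 * (n - r)) * q' (2 * r) = κ' (2 * n - 2 * r) * q' (2 * r)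
  rw [Nat.mul_sub]

end Pool.Agent.GD
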